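import Mathlib

namespace Pool.Agent.Results.MP_d81239_gt.Yes

open Cardinal Set

universe u

/-- every open cover has a subcover of size at most `κ` -/
def Lind (Z : Type u) [TopologicalSpace Z] (κ : Cardinal.{u}) : Prop :=
  ∀ 𝒰 : Set (Set Z), (∀ U ∈ 𝒰, IsOpen U) → ⋃₀ 𝒰 = Set.univ →
    ∃ 𝒱 ⊆ 𝒰, #𝒱 ≤ κ ∧ ⋃₀ 𝒱 = Set.univ

/-- the Lindelöf number -/
noncomputable def lind (Z : Type u) [TopologicalSpace Z] : Cardinal.{u} :=
  sInf {κ | ℵ₀ ≤ κ ∧ Lind Z κ}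

/-- monotone normality (operator form, with `T1`) -/
def MonNormal (X : Type u) [TopologicalSpace X] : Prop :=
  T1Space X ∧ ∃ H : X → Set X → Set X,
    (∀ x U, IsOpen U → x ∈ U → IsOpen (H x U) ∧ x ∈ H x U ∧ H x U ⊆ U) ∧
    ∀ x U y V, IsOpen U → x ∈ U → IsOpen V → y ∈ V → (H x U ∩ H y V).Nonempty → x ∈ V ∨ y ∈ U

theorem lind_mem (Z : Type u) [TopologicalSpace Z] : ℵ₀ ≤ lind Z ∧ Lind Z (lind Z) := by
  refine csInf_mem (s := {κ | ℵ₀ ≤ κ ∧ Lind Z κ}) ⟨max ℵ₀ #(Set Z), le_max_left _ _, ?_⟩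
  exact fun 𝒰 _ h => ⟨𝒰, subset_rfl, (mk_set_le _).trans (le_max_right _ _), h⟩

theorem main {X : Type u} [TopologicalSpace X] (hX : MonNormal X) {Y : Set X} (hY : Dense Y)
    {κ : Cardinal.{u}} (hκ : ℵ₀ ≤ κ) (hL : Lind Y κ) : Lind X κ := by
  classical
  obtain ⟨_, H, h1, h2⟩ := hX
  intro 𝒰 ho hc
  have : ∀ x : X, ∃ U ∈ 𝒰, x ∈ U := fun x => by
    have : x ∈ ⋃₀ 𝒰 := hc ▸ mem_univ x
    simpa using this
  choose U hU hxU using this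
  have oU : ∀ x, IsOpen (U x) := fun x => ho _ (hU x)
  -- it suffices to find a small set of points whose chosen sets cover
  suffices h : ∃ E : Set X, #E ≤ κ ∧ ∀ x, ∃ e ∈ E, x ∈ U e by
    obtain ⟨E, hE, h⟩ := h
    refine ⟨U '' E, by rintro _ ⟨e, -, rfl⟩; exact hU e, mk_image_le.trans hE, ?_⟩
    refine eq_univ_of_forall fun x => ?_
    obtain ⟨e, he, hx⟩ := h x
    exact ⟨_, ⟨e, he, rfl⟩, hx⟩
  obtain ⟨D, hD, hDY⟩ : ∃ D : Set X, #D ≤ κ ∧ ∀ y ∈ Y, ∃ d ∈ D, y ∈ H d (U d) := by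
    obtain ⟨𝒱, s, c, e⟩ := hL (range fun y : X => (Subtype.val ⁻¹' H y (U y) : Set Y))
      (by rintro _ ⟨y, rfl⟩; exact (h1 _ _ (oU y) (hxU y)).1.preimage continuous_subtype_val)
      (eq_univ_of_forall fun y => ⟨_, ⟨y, rfl⟩, (h1 _ _ (oU y) (hxU y)).2.1⟩)
    choose f hf using fun V : 𝒱 => s V.2
    refine ⟨range f, mk_range_le.trans c, fun y hy => ?_⟩
    obtain ⟨V, hV, hy'⟩ : (⟨y, hy⟩ : Y) ∈ ⋃₀ 𝒱 := e ▸ mem_univ _
    refine ⟨f ⟨V, hV⟩, ⟨_, rfl⟩, ?_⟩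
    have := hf ⟨V, hV⟩
    simp only at this
    rw [← this] at hy'
    exact hy'
  -- points not covered by the sets chosen at `D` lie in the closure of `D`
  have cl : ∀ x, (∀ d ∈ D, x ∉ U d) → ∀ V, IsOpen V → x ∈ V → ∃ d ∈ D, d ∈ V := by
    intro x hx V hV hxV
    obtain ⟨a, b, -⟩ := h1 x V hV hxV
    obtain ⟨y, hy, hy'⟩ := hY.exists_mem_open a ⟨x, b⟩
    obtain ⟨d, hd, hyd⟩ := hDY y hy
    exact ⟨d, hd, (h2 x V d (U d) hV hxV (oU d) (hxU d) ⟨y, hy', hyd⟩).resolve_left (hx d hd)⟩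
  have HH : ∀ x V, IsOpen V → x ∈ V → IsOpen (H x (H x V)) ∧ x ∈ H x (H x V) := fun x V a b =>
    let h := h1 x V a b
    ⟨(h1 x _ h.1 h.2.1).1, (h1 x _ h.1 h.2.1).2.1⟩
  -- each piece is small
  have piece : ∀ d : X, ∃ E : Set X, #E ≤ κ ∧ ∀ x, (∀ d ∈ D, x ∉ U d) → d ∈ H x (H x (U x)) →
      ∃ e ∈ E, x ∈ U e := by
    intro d
    let A := {x | (∀ d ∈ D, x ∉ U d) ∧ d ∈ H x (H x (U x))}
    have dich : ∀ x ∈ A, ∀ y ∈ A, y ∉ U x → x ∈ H y (U y) := fun x hx y hy hn => by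
      obtain ⟨a, b, c⟩ := h1 x _ (oU x) (hxU x)
      obtain ⟨a', b', -⟩ := h1 y _ (oU y) (hxU y)
      exact (h2 x _ y _ a b a' b' ⟨d, hx.2, hy.2⟩).resolve_right fun h => hn (c h)
    let P : X → X → X → Prop := fun d' b c =>
      b ∈ A ∧ c ∈ A ∧ c ∉ U b ∧ d' ∈ H c (H c (U c \ {b}))
    have oV : ∀ b c, c ∉ U b → IsOpen (U c \ {b}) ∧ c ∈ U c \ {b} := fun b c h =>
      ⟨(oU c).sdiff isClosed_singleton, hxU c, fun e => h (by rw [e]; exact hxU b)⟩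
    have key : ∀ d' b c b' c', P d' b c → P d' b' c' → b' ∈ U c ∨ c' ∈ U c := by
      rintro d' b c b' c' ⟨-, hc, n, m⟩ ⟨hb', hc', n', m'⟩
      by_contra hh
      push Not at hh
      obtain ⟨o, i⟩ := oV b c n
      obtain ⟨o', i'⟩ := oV b' c' n'
      obtain ⟨a1, a2, a3⟩ := h1 c _ o i
      obtain ⟨a1', a2', -⟩ := h1 c' _ o' i'
      have e1 := (h2 c _ c' _ a1 a2 a1' a2' ⟨d', m, m'⟩).resolve_right fun h => hh.2 (a3 h).1
      rcases h2 c' _ b' _ o' i' (oU b') (hxU b') ⟨c, e1, dich c hc b' hb' hh.1⟩ with h | h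
      · exact n' h
      · exact h.2 rfl
    let g : X → X := fun d' => if h : ∃ c b, P d' b c then h.choose else d'
    have hg : ∀ d' b' c', P d' b' c' → b' ∈ U (g d') ∨ c' ∈ U (g d') := fun d' b' c' h => by
      have e : ∃ c b, P d' b c := ⟨c', b', h⟩
      obtain ⟨b, hb⟩ := e.choose_spec
      simp only [g, dif_pos e]
      exact key d' b _ b' c' hb h
    by_cases hA : ∀ x ∈ A, ∃ e ∈ g '' D, x ∈ U e
    · exact ⟨g '' D, mk_image_le.trans hD, fun x a b => hA x ⟨a, b⟩⟩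
    push Not at hA
    obtain ⟨b, hb, hbn⟩ := hA
    refine ⟨insert b (g '' D), mk_insert_le.trans ?_, fun c a1 a2 => ?_⟩
    · exact add_le_of_le hκ (mk_image_le.trans hD) (one_le_aleph0.trans hκ)
    by_cases hc : c ∈ U b
    · exact ⟨b, mem_insert _ _, hc⟩
    obtain ⟨o, i⟩ := oV b c hc
    obtain ⟨d', hd', m⟩ := cl c a1 _ (HH c _ o i).1 (HH c _ o i).2
    rcases hg d' b c ⟨hb, ⟨a1, a2⟩, hc, m⟩ with h | h
    · exact absurd h (hbn _ ⟨d', hd', rfl⟩)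
    · exact ⟨_, mem_insert_of_mem _ ⟨d', hd', rfl⟩, h⟩
  choose E hE hE' using piece
  refine ⟨D ∪ ⋃ d : D, E d, (mk_union_le _ _).trans (add_le_of_le hκ hD ?_), fun x => ?_⟩
  · refine (mk_iUnion_le _).trans (mul_le_of_le hκ hD ?_)
    exact ciSup_le' fun d => hE d
  by_cases hx : ∀ d ∈ D, x ∉ U d
  · obtain ⟨d, hd, m⟩ := cl x hx _ (HH x _ (oU x) (hxU x)).1 (HH x _ (oU x) (hxU x)).2
    obtain ⟨e, he, h⟩ := hE' d x hx m
    exact ⟨e, .inr (mem_iUnion.2 ⟨⟨d, hd⟩, he⟩), h⟩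
  · push Not at hx
    obtain ⟨d, hd, h⟩ := hx
    exact ⟨d, .inl hd, h⟩

theorem result (X : Type u) [TopologicalSpace X] (hX : MonNormal X) (Y : Set X) (hY : Dense Y) :
    lind X ≤ lind Y :=
  csInf_le' ⟨(lind_mem Y).1, main hX hY (lind_mem Y).1 (lind_mem Y).2⟩

end Pool.Agent.Results.MP_d81239_gt.Yes
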